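import Pool.Agent.Helper20.K4m.Sharp
import Pool.Agent.Helper20.K4m.Closed

/-!
# 3-graphs without K_4^-: tight components and the density 2/7

The weighted inequality for all 3-graphs without `K_4^-`, the resulting bound `(n ^ 3 - n) / 21` for
the 3-graphs all of whose tight components are orientable or have a shadow without `K_7`, in
particular for those which satisfy the local condition `Closed`, and its sharpness for `n = 6 ^ k`.
-/

set_option autoImplicit false

open scoped Classical

namespace Pool.Agent.Results.MP_139b40_co.ShadowClique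

open Pool.Agent.Helper20.K4m

theorem result :
    (∀ (V : Type) [Fintype V] (E : Finset (Finset V)), IsThree E → NoK4m E →
      ∀ x : V → ℝ, (∀ v, 0 ≤ x v) →
        18 * ∑ e ∈ E, (1 + 1 / (rho E e : ℝ)) * ∏ v ∈ e, x v ≤
          (∑ v, x v) ^ 3 - ∑ v, x v ^ 3) ∧
    (∀ (V : Type) [Fintype V] (E : Finset (Finset V)), IsThree E → NoK4m E →
      (∀ e ∈ E, Orient E e ∨ clq E e ≤ 6) →
        21 * E.card + Fintype.card V ≤ Fintype.card V ^ 3) ∧
    (∀ (V : Type) [Fintype V] (E : Finset (Finset V)), IsThree E → NoK4m E → Closed E →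
      ∀ e ∈ E, Orient E e ∨ clq E e ≤ 6) ∧
    ∀ k : ℕ, ∃ (V : Type) (_ : Fintype V) (E : Finset (Finset V)),
      Fintype.card V = 6 ^ k ∧ IsThree E ∧ NoK4m E ∧ Closed E ∧ (∀ e ∈ E, clq E e ≤ 6) ∧
        21 * E.card + 6 ^ k = (6 ^ k) ^ 3 := by
  refine ⟨fun V _ E h3 hK x hx => main E h3 hK x hx, fun V _ E h3 hK hc => ?_,
    fun V _ E h3 hK hcl e he => closed_good E h3 hK hcl e he, sharp⟩
  have h1 := main E h3 hK (fun _ => 1) (fun _ => zero_le_one)
  simp only [Finset.prod_const_one, mul_one, Finset.sum_const, nsmul_eq_mul, one_pow,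
    Finset.card_univ] at h1
  have h2 : (7 / 6 : ℝ) * E.card ≤ ∑ e ∈ E, (1 + 1 / (rho E e : ℝ)) := by
    rw [mul_comm, ← nsmul_eq_mul, ← Finset.sum_const]
    refine Finset.sum_le_sum fun e he => ?_
    have h4 : 3 ≤ clq E e := by
      unfold clq
      rw [← h3 e he]
      refine Finset.le_sup (f := Finset.card) ?_
      rw [Finset.mem_filter]
      exact ⟨Finset.mem_univ _, fun u hu v hv huv => ⟨huv, e, he, Relation.ReflTransGen.refl,
        hu, hv⟩⟩
    have h5 : 3 ≤ rho E e ∧ rho E e ≤ 6 := by
      by_cases ho : Orient E e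
      · have : rho E e = 3 := if_pos ho
        omega
      · have h6 : rho E e = clq E e := if_neg ho
        rcases hc e he with h7 | h7
        · exact absurd h7 ho
        · omega
    have h6 : (0 : ℝ) < rho E e := by
      have : 0 < rho E e := by omega
      exact_mod_cast this
    have h7 : (rho E e : ℝ) ≤ 6 := by exact_mod_cast h5.2
    have h8 : 1 / (6 : ℝ) ≤ 1 / (rho E e : ℝ) := one_div_le_one_div_of_le h6 h7
    linarith
  have h9 : (21 : ℝ) * E.card + Fintype.card V ≤ (Fintype.card V : ℝ) ^ 3 := by linarith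
  exact_mod_cast h9

end Pool.Agent.Results.MP_139b40_co.ShadowClique
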