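import Pool.Agent.Helper25.K4.PlanB
import Pool.Agent.Helper91.KF.F2

/-!
MP_139b40_co: the Turán density of the 3-graph with three edges on four points is `2 / 7`.
-/

set_option autoImplicit false

namespace Pool.Agent.Results.MP_139b40_co.TuranDensity

open KF

/-- The Turán density of `K₄⁻` is `2 / 7`: the ratios `ex n / (n choose 3)` converge to `2 / 7`. -/
theorem result : Filter.Tendsto (fun n : ℕ => (ex n : ℝ) / (n.choose 3 : ℝ)) Filter.atTop
    (nhds (2 / 7)) :=
  frame KS.plan_b

end Pool.Agent.Results.MP_139b40_co.TuranDensity
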